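import Pool.Agent.H.MP_fa5fea_an.A

set_option autoImplicit false

namespace Pool.Agent.H.MP_782c7c_an

open Matrix Pool.Agent.H.MP_fa5fea_an

/-- the rotation symmetric triple -/
def rg : Fin 3 → Matrix (Fin 4) (Fin 4) ℂ :=
  ![!![0, 2, -1, 0; 2, 0, 0, 2; -1, 0, 0, 1; 0, 2, 1, 0],
    !![0, 2 * Complex.I, -Complex.I, 0; -2 * Complex.I, 0, 0, 2 * Complex.I;
      Complex.I, 0, 0, Complex.I; 0, -2 * Complex.I, -Complex.I, 0],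
    !![0, 0, 0, 0; 0, 4, 0, 0; 0, 0, -1, 0; 0, 0, 0, 0]]

lemma rg_herm (j : Fin 3) : (rg j).IsHermitian := by
  fin_cases j <;> ext a b <;> fin_cases a <;> fin_cases b <;> simp [rg]

lemma adjug (w v z a0 a1 a2 a3 c0 c1 c2 c3 : ℂ)
    (h0 : ((-1) * z) * a0 + ((-1) * v) * c0 + ((4)) * c1 + ((-2)) * c2 = 0)
    (h1 : ((-1) * z + (4)) * a1 + ((-1) * v) * c1 + ((4)) * c3 = 0)
    (h2 : ((-1) * z + (-1)) * a2 + ((-1) * v) * c2 + ((2)) * c3 = 0)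
    (h3 : ((-1) * z) * a3 + ((-1) * v) * c3 = 0)
    (h4 : ((-1) * w) * a0 + ((1) * z) * c0 = 0)
    (h5 : ((4)) * a0 + ((-1) * w) * a1 + ((1) * z + (-4)) * c1 = 0)
    (h6 : ((-2)) * a0 + ((-1) * w) * a2 + ((1) * z + (1)) * c2 = 0)
    (h7 : ((4)) * a1 + ((2)) * a2 + ((-1) * w) * a3 + ((1) * z) * c3 = 0)
    (q : ℂ) (hq : q = (1) * z ^ 8 + (4) * w * v * z ^ 6 + (6) * w ^ 2 * v ^ 2 * z ^ 4 + (4) * w ^ 3 * v ^ 3 * z ^ 2 + (1) * w ^ 4 * v ^ 4 + (-6) * z ^ 7 + (-18) * w * v * z ^ 5 + (-18) * w ^ 2 * v ^ 2 * z ^ 3 + (-6) * w ^ 3 * v ^ 3 * z + (41) * z ^ 6 + (99) * w * v * z ^ 4 + (75) * w ^ 2 * v ^ 2 * z ^ 2 + (17) * w ^ 3 * v ^ 3 + (-96) * z ^ 5 + (-192) * w * v * z ^ 3 + (-96) * w ^ 2 * v ^ 2 * z + (256) * z ^ 4 + (16) * w * v * z ^ 2 + (16) * w ^ 2 * v ^ 2) :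
    q * a0 = 0 ∧ q * a1 = 0 ∧ q * a2 = 0 ∧ q * a3 = 0 ∧ q * c0 = 0 ∧ q * c1 = 0 ∧ q * c2 = 0 ∧
      q * c3 = 0 := by
  subst hq
  refine ⟨?_, ?_, ?_, ?_, ?_, ?_, ?_, ?_⟩
  · linear_combination ((-1) * z ^ 7 + (-3) * w * v * z ^ 5 + (-3) * w ^ 2 * v ^ 2 * z ^ 3 + (-1) * w ^ 3 * v ^ 3 * z + (6) * z ^ 6 + (12) * w * v * z ^ 4 + (6) * w ^ 2 * v ^ 2 * z ^ 2 + (-21) * z ^ 5 + (-38) * w * v * z ^ 3 + (-17) * w ^ 2 * v ^ 2 * z + (36) * z ^ 4 + (36) * w * v * z ^ 2 + (64) * z ^ 3 + (-16) * w * v * z) * h0 + ((-4) * w * z ^ 5 + (-8) * w ^ 2 * v * z ^ 3 + (-4) * w ^ 3 * v ^ 2 * z + (-8) * w * z ^ 4 + (-8) * w ^ 2 * v * z ^ 2 + (-36) * w * z ^ 3 + (-4) * w ^ 2 * v * z + (48) * w * z ^ 2) * h1 + ((2) * w * z ^ 5 + (4) * w ^ 2 * v * z ^ 3 + (2) * w ^ 3 * v ^ 2 * z + (-16) * w * z ^ 4 + (-16) * w ^ 2 * v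 * z ^ 2 + (96) * w * z ^ 3 + (32) * w ^ 2 * v * z + (-96) * w * z ^ 2) * h2 + ((-12) * w ^ 2 * z ^ 3 + (-12) * w ^ 3 * v * z + (-64) * w ^ 2 * z ^ 2 + (48) * w ^ 2 * z) * h3 + ((-1) * v * z ^ 6 + (-3) * w * v ^ 2 * z ^ 4 + (-3) * w ^ 2 * v ^ 3 * z ^ 2 + (-1) * w ^ 3 * v ^ 4 + (6) * v * z ^ 5 + (12) * w * v ^ 2 * z ^ 3 + (6) * w ^ 2 * v ^ 3 * z + (-21) * v * z ^ 4 + (-38) * w * v ^ 2 * z ^ 2 + (-17) * w ^ 2 * v ^ 3 + (36) * v * z ^ 3 + (36) * w * v ^ 2 * z + (64) * v * z ^ 2 + (-16) * w * v ^ 2) * h4 + ((4) * z ^ 6 + (8) * w * v * z ^ 4 + (4) * w ^ 2 * v ^ 2 * z ^ 2 + (-8) * z ^ 5 + (-24) * w * v * z ^ 3 + (-16) * w ^ 2 * v ^ 2 * z + (52) * z ^ 4 + (20) * w * v * z ^ 2 + (64) * z ^ 3 + (-16) * w * v * z) * h5 + ((-2) * z ^ 6 + (-4) * w * v * z ^ 4 + (-2) * w ^ 2 * v ^ 2 * z ^ 2 + (14) * z ^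 5 + (12) * w * v * z ^ 3 + (-2) * w ^ 2 * v ^ 2 * z + (-56) * z ^ 4 + (8) * w * v * z ^ 2 + (128) * z ^ 3 + (-32) * w * v * z) * h6 + ((12) * w * z ^ 4 + (12) * w ^ 2 * v * z ^ 2 + (64) * w * z ^ 3 + (-48) * w * z ^ 2) * h7
  · linear_combination ((-4) * v * z ^ 5 + (-8) * w * v ^ 2 * z ^ 3 + (-4) * w ^ 2 * v ^ 3 * z + (-8) * v * z ^ 4 + (-8) * w * v ^ 2 * z ^ 2 + (-36) * v * z ^ 3 + (-4) * w * v ^ 2 * z + (48) * v * z ^ 2) * h0 + ((-1) * z ^ 7 + (-3) * w * v * z ^ 5 + (-3) * w ^ 2 * v ^ 2 * z ^ 3 + (-1) * w ^ 3 * v ^ 3 * z + (2) * z ^ 6 + (8) * w * v * z ^ 4 + (10) * w ^ 2 * v ^ 2 * z ^ 2 + (4) * w ^ 3 * v ^ 3 + (-17) * z ^ 5 + (-26) * w * v * z ^ 3 + (-9) * w ^ 2 * v ^ 2 * z + (-4) * z ^ 4 + (4) * w ^ 2 * v ^ 2 + (-64) * z ^ 3 + (16) * w * v * z) * h1 + ((8) * z ^ 5 + (16) * w * v * z ^ 3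 + (8) * w ^ 2 * v ^ 2 * z + (-24) * z ^ 4 + (-24) * w * v * z ^ 2 + (128) * z ^ 3 + (-32) * w * v * z) * h2 + ((-4) * w * z ^ 5 + (-8) * w ^ 2 * v * z ^ 3 + (-4) * w ^ 3 * v ^ 2 * z + (8) * w * z ^ 4 + (24) * w ^ 2 * v * z ^ 2 + (16) * w ^ 3 * v ^ 2 + (-52) * w * z ^ 3 + (-20) * w ^ 2 * v * z + (-64) * w * z ^ 2 + (16) * w ^ 2 * v) * h3 + ((-4) * v ^ 2 * z ^ 4 + (-8) * w * v ^ 3 * z ^ 2 + (-4) * w ^ 2 * v ^ 4 + (-8) * v ^ 2 * z ^ 3 + (-8) * w * v ^ 3 * z + (-36) * v ^ 2 * z ^ 2 + (-4) * w * v ^ 3 + (48) * v ^ 2 * z) * h4 + ((-1) * v * z ^ 6 + (-3) * w * v ^ 2 * z ^ 4 + (-3) * w ^ 2 * v ^ 3 * z ^ 2 + (-1) * w ^ 3 * v ^ 4 + (-2) * v * z ^ 5 + (-4) * w * v ^ 2 * z ^ 3 + (-2) * w ^ 2 * v ^ 3 * z + (-9) * v * z ^ 4 + (-10) * w * v ^ 2 * z ^ 2 + (-1) * w ^ 2 * v ^ 3 + (-8) * v * z ^ 3 + (-8) * w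 * v ^ 2 * z + (48) * v * z ^ 2) * h5 + ((-40) * v * z ^ 3 + (-40) * w * v ^ 2 * z + (96) * v * z ^ 2) * h6 + ((4) * z ^ 6 + (8) * w * v * z ^ 4 + (4) * w ^ 2 * v ^ 2 * z ^ 2 + (-8) * z ^ 5 + (-24) * w * v * z ^ 3 + (-16) * w ^ 2 * v ^ 2 * z + (52) * z ^ 4 + (20) * w * v * z ^ 2 + (64) * z ^ 3 + (-16) * w * v * z) * h7
  · linear_combination ((2) * v * z ^ 5 + (4) * w * v ^ 2 * z ^ 3 + (2) * w ^ 2 * v ^ 3 * z + (-16) * v * z ^ 4 + (-16) * w * v ^ 2 * z ^ 2 + (96) * v * z ^ 3 + (32) * w * v ^ 2 * z + (-96) * v * z ^ 2) * h0 + ((8) * z ^ 5 + (16) * w * v * z ^ 3 + (8) * w ^ 2 * v ^ 2 * z + (-24) * z ^ 4 + (-24) * w * v * z ^ 2 + (128) * z ^ 3 + (-32) * w * v * z) * h1 + ((-1) * z ^ 7 + (-3) * w * v * z ^ 5 + (-3) * w ^ 2 * v ^ 2 * z ^ 3 + (-1) * w ^ 3 * v ^ 3 * z + (7) * z ^ 6 + (13) * w * v *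 z ^ 4 + (5) * w ^ 2 * v ^ 2 * z ^ 2 + (-1) * w ^ 3 * v ^ 3 + (-44) * z ^ 5 + (-56) * w * v * z ^ 3 + (-12) * w ^ 2 * v ^ 2 * z + (112) * z ^ 4 + (96) * w * v * z ^ 2 + (-16) * w ^ 2 * v ^ 2 + (-256) * z ^ 3 + (64) * w * v * z) * h2 + ((-2) * w * z ^ 5 + (-4) * w ^ 2 * v * z ^ 3 + (-2) * w ^ 3 * v ^ 2 * z + (14) * w * z ^ 4 + (12) * w ^ 2 * v * z ^ 2 + (-2) * w ^ 3 * v ^ 2 + (-56) * w * z ^ 3 + (8) * w ^ 2 * v * z + (128) * w * z ^ 2 + (-32) * w ^ 2 * v) * h3 + ((2) * v ^ 2 * z ^ 4 + (4) * w * v ^ 3 * z ^ 2 + (2) * w ^ 2 * v ^ 4 + (-16) * v ^ 2 * z ^ 3 + (-16) * w * v ^ 3 * z + (96) * v ^ 2 * z ^ 2 + (32) * w * v ^ 3 + (-96) * v ^ 2 * z) * h4 + ((40) * v * z ^ 3 + (40) * w * v ^ 2 * z + (-96) * v * z ^ 2) * h5 + ((-1) * v * z ^ 6 + (-3) * w * v ^ 2 * z ^ 4 + (-3) * w ^ 2 * v ^ 3 * z ^ 2 + (-1)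 * w ^ 3 * v ^ 4 + (8) * v * z ^ 5 + (16) * w * v ^ 2 * z ^ 3 + (8) * w ^ 2 * v ^ 3 * z + (-48) * v * z ^ 4 + (-64) * w * v ^ 2 * z ^ 2 + (-16) * w ^ 2 * v ^ 3 + (128) * v * z ^ 3 + (128) * w * v ^ 2 * z + (-192) * v * z ^ 2) * h6 + ((2) * z ^ 6 + (4) * w * v * z ^ 4 + (2) * w ^ 2 * v ^ 2 * z ^ 2 + (-14) * z ^ 5 + (-12) * w * v * z ^ 3 + (2) * w ^ 2 * v ^ 2 * z + (56) * z ^ 4 + (-8) * w * v * z ^ 2 + (-128) * z ^ 3 + (32) * w * v * z) * h7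
  · linear_combination ((-12) * v ^ 2 * z ^ 3 + (-12) * w * v ^ 3 * z + (-64) * v ^ 2 * z ^ 2 + (48) * v ^ 2 * z) * h0 + ((-4) * v * z ^ 5 + (-8) * w * v ^ 2 * z ^ 3 + (-4) * w ^ 2 * v ^ 3 * z + (8) * v * z ^ 4 + (24) * w * v ^ 2 * z ^ 2 + (16) * w ^ 2 * v ^ 3 + (-52) * v * z ^ 3 + (-20) * w * v ^ 2 * z + (-64) * v * z ^ 2 + (16) * w * v ^ 2) * h1 + ((-2) * v * z ^ 5 + (-4) * w * v ^ 2 * z ^ 3 + (-2) * w ^ 2 * v ^ 3 * z + (14) * v * z ^ 4 + (12) * w * v ^ 2 * z ^ 2 + (-2) * w ^ 2 * v ^ 3 + (-56) * v * z ^ 3 + (8) * w * v ^ 2 * z + (128) * v * z ^ 2 + (-32) * w * v ^ 2) * h2 + ((-1) * z ^ 7 + (-3) * w * v * z ^ 5 + (-3) * w ^ 2 * v ^ 2 * z ^ 3 + (-1) * w ^ 3 * v ^ 3 * z + (6) * z ^ 6 + (12) * w * v * z ^ 4 + (6) * w ^ 2 * v ^ 2 * z ^ 2 + (-41) * z ^ 5 + (-78) * w * v * z ^ 3 + (-37) * w ^ 2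 * v ^ 2 * z + (96) * z ^ 4 + (156) * w * v * z ^ 2 + (60) * w ^ 2 * v ^ 2 + (-256) * z ^ 3 + (-80) * w * v * z) * h3 + ((-12) * v ^ 3 * z ^ 2 + (-12) * w * v ^ 4 + (-64) * v ^ 3 * z + (48) * v ^ 3) * h4 + ((-4) * v ^ 2 * z ^ 4 + (-8) * w * v ^ 3 * z ^ 2 + (-4) * w ^ 2 * v ^ 4 + (-8) * v ^ 2 * z ^ 3 + (-8) * w * v ^ 3 * z + (-36) * v ^ 2 * z ^ 2 + (-4) * w * v ^ 3 + (48) * v ^ 2 * z) * h5 + ((-2) * v ^ 2 * z ^ 4 + (-4) * w * v ^ 3 * z ^ 2 + (-2) * w ^ 2 * v ^ 4 + (16) * v ^ 2 * z ^ 3 + (16) * w * v ^ 3 * z + (-96) * v ^ 2 * z ^ 2 + (-32) * w * v ^ 3 + (96) * v ^ 2 * z) * h6 + ((-1) * v * z ^ 6 + (-3) * w * v ^ 2 * z ^ 4 + (-3) * w ^ 2 * v ^ 3 * z ^ 2 + (-1) * w ^ 3 * v ^ 4 + (6) * v * z ^ 5 + (12) * w * v ^ 2 * z ^ 3 + (6) * w ^ 2 * v ^ 3 * z + (-21) * v * z ^ 4 + (-38) * w * v ^ 2 * z ^ 2 +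 (-17) * w ^ 2 * v ^ 3 + (36) * v * z ^ 3 + (36) * w * v ^ 2 * z + (64) * v * z ^ 2 + (-16) * w * v ^ 2) * h7
  · linear_combination ((-1) * w * z ^ 6 + (-3) * w ^ 2 * v * z ^ 4 + (-3) * w ^ 3 * v ^ 2 * z ^ 2 + (-1) * w ^ 4 * v ^ 3 + (6) * w * z ^ 5 + (12) * w ^ 2 * v * z ^ 3 + (6) * w ^ 3 * v ^ 2 * z + (-21) * w * z ^ 4 + (-38) * w ^ 2 * v * z ^ 2 + (-17) * w ^ 3 * v ^ 2 + (36) * w * z ^ 3 + (36) * w ^ 2 * v * z + (64) * w * z ^ 2 + (-16) * w ^ 2 * v) * h0 + ((-4) * w ^ 2 * z ^ 4 + (-8) * w ^ 3 * v * z ^ 2 + (-4) * w ^ 4 * v ^ 2 + (-8) * w ^ 2 * z ^ 3 + (-8) * w ^ 3 * v * z + (-36) * w ^ 2 * z ^ 2 + (-4) * w ^ 3 * v + (48) * w ^ 2 * z) * h1 + ((2) * w ^ 2 * z ^ 4 + (4) * w ^ 3 * v * z ^ 2 + (2) * w ^ 4 * v ^ 2 + (-16) * w ^ 2 * z ^ 3 + (-16) * w ^ 3 * v * z + (96) * w ^ 2 * z ^ 2 + (32) * w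 ^ 3 * v + (-96) * w ^ 2 * z) * h2 + ((-12) * w ^ 3 * z ^ 2 + (-12) * w ^ 4 * v + (-64) * w ^ 3 * z + (48) * w ^ 3) * h3 + ((1) * z ^ 7 + (3) * w * v * z ^ 5 + (3) * w ^ 2 * v ^ 2 * z ^ 3 + (1) * w ^ 3 * v ^ 3 * z + (-6) * z ^ 6 + (-12) * w * v * z ^ 4 + (-6) * w ^ 2 * v ^ 2 * z ^ 2 + (41) * z ^ 5 + (78) * w * v * z ^ 3 + (37) * w ^ 2 * v ^ 2 * z + (-96) * z ^ 4 + (-156) * w * v * z ^ 2 + (-60) * w ^ 2 * v ^ 2 + (256) * z ^ 3 + (80) * w * v * z) * h4 + ((4) * w * z ^ 5 + (8) * w ^ 2 * v * z ^ 3 + (4) * w ^ 3 * v ^ 2 * z + (-8) * w * z ^ 4 + (-24) * w ^ 2 * v * z ^ 2 + (-16) * w ^ 3 * v ^ 2 + (52) * w * z ^ 3 + (20) * w ^ 2 * v * z + (64) * w * z ^ 2 + (-16) * w ^ 2 * v) * h5 + ((-2) * w * z ^ 5 + (-4) * w ^ 2 * v * z ^ 3 + (-2) * w ^ 3 * v ^ 2 * z + (14) * w * z ^ 4 + (12) * w ^ 2 * v * z ^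 2 + (-2) * w ^ 3 * v ^ 2 + (-56) * w * z ^ 3 + (8) * w ^ 2 * v * z + (128) * w * z ^ 2 + (-32) * w ^ 2 * v) * h6 + ((12) * w ^ 2 * z ^ 3 + (12) * w ^ 3 * v * z + (64) * w ^ 2 * z ^ 2 + (-48) * w ^ 2 * z) * h7
  · linear_combination ((4) * z ^ 6 + (8) * w * v * z ^ 4 + (4) * w ^ 2 * v ^ 2 * z ^ 2 + (-8) * z ^ 5 + (-24) * w * v * z ^ 3 + (-16) * w ^ 2 * v ^ 2 * z + (52) * z ^ 4 + (20) * w * v * z ^ 2 + (64) * z ^ 3 + (-16) * w * v * z) * h0 + ((-1) * w * z ^ 6 + (-3) * w ^ 2 * v * z ^ 4 + (-3) * w ^ 3 * v ^ 2 * z ^ 2 + (-1) * w ^ 4 * v ^ 3 + (-2) * w * z ^ 5 + (-4) * w ^ 2 * v * z ^ 3 + (-2) * w ^ 3 * v ^ 2 * z + (-9) * w * z ^ 4 + (-10) * w ^ 2 * v * z ^ 2 + (-1) * w ^ 3 * v ^ 2 + (-8) * w * z ^ 3 + (-8) * w ^ 2 * v * z + (48) * w * z ^ 2) * h1 + ((40) * w * z ^ 3 + (40) * w ^ 2 * v * z + (-96)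 * w * z ^ 2) * h2 + ((-4) * w ^ 2 * z ^ 4 + (-8) * w ^ 3 * v * z ^ 2 + (-4) * w ^ 4 * v ^ 2 + (-8) * w ^ 2 * z ^ 3 + (-8) * w ^ 3 * v * z + (-36) * w ^ 2 * z ^ 2 + (-4) * w ^ 3 * v + (48) * w ^ 2 * z) * h3 + ((4) * v * z ^ 5 + (8) * w * v ^ 2 * z ^ 3 + (4) * w ^ 2 * v ^ 3 * z + (-8) * v * z ^ 4 + (-24) * w * v ^ 2 * z ^ 2 + (-16) * w ^ 2 * v ^ 3 + (52) * v * z ^ 3 + (20) * w * v ^ 2 * z + (64) * v * z ^ 2 + (-16) * w * v ^ 2) * h4 + ((1) * z ^ 7 + (3) * w * v * z ^ 5 + (3) * w ^ 2 * v ^ 2 * z ^ 3 + (1) * w ^ 3 * v ^ 3 * z + (-2) * z ^ 6 + (-8) * w * v * z ^ 4 + (-10) * w ^ 2 * v ^ 2 * z ^ 2 + (-4) * w ^ 3 * v ^ 3 + (17) * z ^ 5 + (26) * w * v * z ^ 3 + (9) * w ^ 2 * v ^ 2 * z + (4) * z ^ 4 + (-4) * w ^ 2 * v ^ 2 + (64) * z ^ 3 + (-16) * w * v * z) * h5 + ((8) * z ^ 5 + (16) * w * v * z ^ 3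 + (8) * w ^ 2 * v ^ 2 * z + (-24) * z ^ 4 + (-24) * w * v * z ^ 2 + (128) * z ^ 3 + (-32) * w * v * z) * h6 + ((4) * w * z ^ 5 + (8) * w ^ 2 * v * z ^ 3 + (4) * w ^ 3 * v ^ 2 * z + (8) * w * z ^ 4 + (8) * w ^ 2 * v * z ^ 2 + (36) * w * z ^ 3 + (4) * w ^ 2 * v * z + (-48) * w * z ^ 2) * h7
  · linear_combination ((-2) * z ^ 6 + (-4) * w * v * z ^ 4 + (-2) * w ^ 2 * v ^ 2 * z ^ 2 + (14) * z ^ 5 + (12) * w * v * z ^ 3 + (-2) * w ^ 2 * v ^ 2 * z + (-56) * z ^ 4 + (8) * w * v * z ^ 2 + (128) * z ^ 3 + (-32) * w * v * z) * h0 + ((-40) * w * z ^ 3 + (-40) * w ^ 2 * v * z + (96) * w * z ^ 2) * h1 + ((-1) * w * z ^ 6 + (-3) * w ^ 2 * v * z ^ 4 + (-3) * w ^ 3 * v ^ 2 * z ^ 2 + (-1) * w ^ 4 * v ^ 3 + (8) * w * z ^ 5 + (16) * w ^ 2 * v * z ^ 3 + (8) * w ^ 3 * v ^ 2 * z + (-48) * w * z ^ 4 + (-64) * w ^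 2 * v * z ^ 2 + (-16) * w ^ 3 * v ^ 2 + (128) * w * z ^ 3 + (128) * w ^ 2 * v * z + (-192) * w * z ^ 2) * h2 + ((-2) * w ^ 2 * z ^ 4 + (-4) * w ^ 3 * v * z ^ 2 + (-2) * w ^ 4 * v ^ 2 + (16) * w ^ 2 * z ^ 3 + (16) * w ^ 3 * v * z + (-96) * w ^ 2 * z ^ 2 + (-32) * w ^ 3 * v + (96) * w ^ 2 * z) * h3 + ((-2) * v * z ^ 5 + (-4) * w * v ^ 2 * z ^ 3 + (-2) * w ^ 2 * v ^ 3 * z + (14) * v * z ^ 4 + (12) * w * v ^ 2 * z ^ 2 + (-2) * w ^ 2 * v ^ 3 + (-56) * v * z ^ 3 + (8) * w * v ^ 2 * z + (128) * v * z ^ 2 + (-32) * w * v ^ 2) * h4 + ((8) * z ^ 5 + (16) * w * v * z ^ 3 + (8) * w ^ 2 * v ^ 2 * z + (-24) * z ^ 4 + (-24) * w * v * z ^ 2 + (128) * z ^ 3 + (-32) * w * v * z) * h5 + ((1) * z ^ 7 + (3) * w * v * z ^ 5 + (3) * w ^ 2 * v ^ 2 * z ^ 3 + (1) * w ^ 3 * v ^ 3 * z + (-7) * z ^ 6 + (-13) * w * v *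 z ^ 4 + (-5) * w ^ 2 * v ^ 2 * z ^ 2 + (1) * w ^ 3 * v ^ 3 + (44) * z ^ 5 + (56) * w * v * z ^ 3 + (12) * w ^ 2 * v ^ 2 * z + (-112) * z ^ 4 + (-96) * w * v * z ^ 2 + (16) * w ^ 2 * v ^ 2 + (256) * z ^ 3 + (-64) * w * v * z) * h6 + ((2) * w * z ^ 5 + (4) * w ^ 2 * v * z ^ 3 + (2) * w ^ 3 * v ^ 2 * z + (-16) * w * z ^ 4 + (-16) * w ^ 2 * v * z ^ 2 + (96) * w * z ^ 3 + (32) * w ^ 2 * v * z + (-96) * w * z ^ 2) * h7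
  · linear_combination ((12) * v * z ^ 4 + (12) * w * v ^ 2 * z ^ 2 + (64) * v * z ^ 3 + (-48) * v * z ^ 2) * h0 + ((4) * z ^ 6 + (8) * w * v * z ^ 4 + (4) * w ^ 2 * v ^ 2 * z ^ 2 + (-8) * z ^ 5 + (-24) * w * v * z ^ 3 + (-16) * w ^ 2 * v ^ 2 * z + (52) * z ^ 4 + (20) * w * v * z ^ 2 + (64) * z ^ 3 + (-16) * w * v * z) * h1 + ((2) * z ^ 6 + (4) * w * v * z ^ 4 + (2) * w ^ 2 * v ^ 2 * z ^ 2 + (-14) * z ^ 5 + (-12) * w * v * z ^ 3 + (2) * w ^ 2 * v ^ 2 * z + (56) * z ^ 4 + (-8) * w * v * z ^ 2 + (-128) * z ^ 3 + (32) * w * v * z) * h2 + ((-1) * w * z ^ 6 + (-3) * w ^ 2 * v * z ^ 4 + (-3) * w ^ 3 * v ^ 2 * z ^ 2 + (-1) * w ^ 4 * v ^ 3 + (6) * w * z ^ 5 + (12) * w ^ 2 * v * z ^ 3 + (6) * w ^ 3 * v ^ 2 * z + (-21) * w * z ^ 4 + (-38) * w ^ 2 * v * z ^ 2 + (-17) * w ^ 3 * v ^ 2 + (36) * w * z ^ 3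 + (36) * w ^ 2 * v * z + (64) * w * z ^ 2 + (-16) * w ^ 2 * v) * h3 + ((12) * v ^ 2 * z ^ 3 + (12) * w * v ^ 3 * z + (64) * v ^ 2 * z ^ 2 + (-48) * v ^ 2 * z) * h4 + ((4) * v * z ^ 5 + (8) * w * v ^ 2 * z ^ 3 + (4) * w ^ 2 * v ^ 3 * z + (8) * v * z ^ 4 + (8) * w * v ^ 2 * z ^ 2 + (36) * v * z ^ 3 + (4) * w * v ^ 2 * z + (-48) * v * z ^ 2) * h5 + ((2) * v * z ^ 5 + (4) * w * v ^ 2 * z ^ 3 + (2) * w ^ 2 * v ^ 3 * z + (-16) * v * z ^ 4 + (-16) * w * v ^ 2 * z ^ 2 + (96) * v * z ^ 3 + (32) * w * v ^ 2 * z + (-96) * v * z ^ 2) * h6 + ((1) * z ^ 7 + (3) * w * v * z ^ 5 + (3) * w ^ 2 * v ^ 2 * z ^ 3 + (1) * w ^ 3 * v ^ 3 * z + (-6) * z ^ 6 + (-12) * w * v * z ^ 4 + (-6) * w ^ 2 * v ^ 2 * z ^ 2 + (21) * z ^ 5 + (38) * w * v * z ^ 3 + (17) * w ^ 2 * v ^ 2 * z + (-36) * z ^ 4 + (-36) * w * v * z ^ 2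 + (-64) * z ^ 3 + (16) * w * v * z) * h7

/-- localizer -/
noncomputable def loc {n : Type} [Fintype n] [DecidableEq n] (A : Fin 3 → Matrix n n ℂ)
    (x : Fin 3 → ℝ) : Matrix (n × Fin 2) (n × Fin 2) ℂ :=
  ∑ j : Fin 3, Matrix.kronecker (A j - ((x j : ℂ)) • (1 : Matrix n n ℂ)) (pauli j)

lemma loc_mulVec {n : Type} [Fintype n] [DecidableEq n] (A : Fin 3 → Matrix n n ℂ)
    (x : Fin 3 → ℝ) (u : n × Fin 2 → ℂ) (p : n) :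
    ((loc A x *ᵥ u) (p, 0) = ∑ r, (A 2 p r * u (r, 0) + (A 0 p r - Complex.I * A 1 p r) * u (r, 1))
        - x 2 * u (p, 0) - (x 0 - x 1 * Complex.I) * u (p, 1)) ∧
    ((loc A x *ᵥ u) (p, 1) = ∑ r, ((A 0 p r + Complex.I * A 1 p r) * u (r, 0) - A 2 p r * u (r, 1))
        - (x 0 + x 1 * Complex.I) * u (p, 0) + x 2 * u (p, 1)) := by
  have e1 : ∀ c : ℂ, ∀ t : Fin 2, c * u (p, t) = ∑ r, c * (1 : Matrix n n ℂ) p r * u (r, t) := by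
    intro c t; simp [Matrix.one_apply]
  constructor
  · rw [e1, e1 (x 0 - x 1 * Complex.I), ← Finset.sum_sub_distrib, ← Finset.sum_sub_distrib]
    simp only [loc, Matrix.mulVec, dotProduct, Fintype.sum_prod_type]
    refine Finset.sum_congr rfl fun r _ => ?_
    simp [Fin.sum_univ_succ, pauli, Matrix.sum_apply]
    ring
  · rw [e1, e1 (x 2), ← Finset.sum_sub_distrib, ← Finset.sum_add_distrib]
    simp only [loc, Matrix.mulVec, dotProduct, Fintype.sum_prod_type]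
    refine Finset.sum_congr rfl fun r _ => ?_
    simp [Fin.sum_univ_succ, pauli, Matrix.sum_apply]
    ring

lemma ker_iff (x : Fin 3 → ℝ) (u : Fin 4 × Fin 2 → ℂ) (w v z : ℂ)
    (hw : w = x 0 + x 1 * Complex.I) (hv : v = x 0 - x 1 * Complex.I) (hz : z = x 2) :
    loc rg x *ᵥ u = 0 ↔
      (((-1) * z) * u (0, 0) + ((-1) * v) * u (0, 1) + ((4)) * u (1, 1) + ((-2)) * u (2, 1) = 0) ∧
      (((-1) * w) * u (0, 0) + ((1) * z) * u (0, 1) = 0) ∧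
      (((-1) * z + (4)) * u (1, 0) + ((-1) * v) * u (1, 1) + ((4)) * u (3, 1) = 0) ∧
      (((4)) * u (0, 0) + ((-1) * w) * u (1, 0) + ((1) * z + (-4)) * u (1, 1) = 0) ∧
      (((-1) * z + (-1)) * u (2, 0) + ((-1) * v) * u (2, 1) + ((2)) * u (3, 1) = 0) ∧
      (((-2)) * u (0, 0) + ((-1) * w) * u (2, 0) + ((1) * z + (1)) * u (2, 1) = 0) ∧
      (((-1) * z) * u (3, 0) + ((-1) * v) * u (3, 1) = 0) ∧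
      (((4)) * u (1, 0) + ((2)) * u (2, 0) + ((-1) * w) * u (3, 0) + ((1) * z) * u (3, 1) = 0) := by
  have hI : Complex.I * Complex.I = -1 := Complex.I_mul_I
  have key : loc rg x *ᵥ u = 0 ↔ ∀ p, (loc rg x *ᵥ u) (p, 0) = 0 ∧ (loc rg x *ᵥ u) (p, 1) = 0 := by
    simp only [funext_iff, Prod.forall, Fin.forall_fin_two, Pi.zero_apply]
  rw [key]
  simp only [(loc_mulVec rg x u _).1, (loc_mulVec rg x u _).2, ← hw, ← hv, ← hz]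
  simp only [Fin.forall_fin_succ, and_assoc, Fin.sum_univ_succ]
  simp [rg, mul_comm Complex.I, mul_assoc, hI]
  refine and_congr ?_ (and_congr ?_ (and_congr ?_ (and_congr ?_ (and_congr ?_ (and_congr ?_
    (and_congr ?_ ?_)))))) <;>
    constructor <;> intro h <;> linear_combination h

lemma real_part (r z : ℝ) (hr : 0 ≤ r)
    (h : ((r + z ^ 2) * (r + (z - 4) * (z + 1)) + 20 * z ^ 2) ^ 2 +
      r * (5 * (r + z ^ 2) - 12 * z) ^ 2 = 0) :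
    (r = 0 ∧ z = 0) ∨ (r = 819 / 841 ∧ z = 15 / 29) := by
  have h1 : 0 ≤ r * (5 * (r + z ^ 2) - 12 * z) ^ 2 := by positivity
  have h2 := sq_nonneg ((r + z ^ 2) * (r + (z - 4) * (z + 1)) + 20 * z ^ 2)
  have h3 : (r + z ^ 2) * (r + (z - 4) * (z + 1)) + 20 * z ^ 2 = 0 :=
    pow_eq_zero_iff (two_ne_zero) |>.1 (by linarith)
  have h4 : r * (5 * (r + z ^ 2) - 12 * z) ^ 2 = 0 := by linarith
  rcases mul_eq_zero.1 h4 with h5 | h5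
  · left
    refine ⟨h5, ?_⟩
    rw [h5] at h3
    have : z ^ 2 * ((z - 3 / 2) ^ 2 + 55 / 4) = 0 := by linear_combination h3
    rcases mul_eq_zero.1 this with h6 | h6
    · exact pow_eq_zero_iff (two_ne_zero) |>.1 h6
    · exact absurd h6 (by positivity)
  · have h6 : 5 * (r + z ^ 2) - 12 * z = 0 := pow_eq_zero_iff (two_ne_zero) |>.1 h5
    have h7 : r = 12 / 5 * z - z ^ 2 := by linarith
    rw [h7] at h3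
    have : z * (z - 15 / 29) = 0 := by linear_combination (25 / 464) * h3
    rcases mul_eq_zero.1 this with h8 | h8
    · left; rw [h8] at h7; exact ⟨by linarith, h8⟩
    · right
      have : z = 15 / 29 := by linarith
      rw [this] at h7
      exact ⟨by rw [h7]; norm_num, this⟩

theorem spec (x : Fin 3 → ℝ) : (loc rg x).det = 0 ↔
    (x 0 ^ 2 + x 1 ^ 2 = 0 ∧ x 2 = 0) ∨ (x 0 ^ 2 + x 1 ^ 2 = 819 / 841 ∧ x 2 = 15 / 29) := by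
  have e1 : ∀ w v : ℂ, w = x 0 + x 1 * Complex.I → v = x 0 - x 1 * Complex.I →
      w * v = ((x 0 ^ 2 + x 1 ^ 2 : ℝ) : ℂ) := by
    intro w v hw hv
    rw [hw, hv]; push_cast; linear_combination (-(x 1 : ℂ) ^ 2) * Complex.I_sq
  constructor
  · intro h
    obtain ⟨u, hu0, hu⟩ := Matrix.exists_mulVec_eq_zero_iff.2 h
    obtain ⟨h0, h4, h1, h5, h2, h6, h3, h7⟩ := (ker_iff x u _ _ _ rfl rfl rfl).1 hu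
    set r := x 0 ^ 2 + x 1 ^ 2 with hr
    have hq : ∀ w v z : ℂ, w = x 0 + x 1 * Complex.I → v = x 0 - x 1 * Complex.I → z = x 2 →
        ((((r + x 2 ^ 2) * (r + (x 2 - 4) * (x 2 + 1)) + 20 * x 2 ^ 2) ^ 2 +
      r * (5 * (r + x 2 ^ 2) - 12 * x 2) ^ 2 : ℝ) : ℂ) = (1) * z ^ 8 + (4) * w * v * z ^ 6 + (6) * w ^ 2 * v ^ 2 * z ^ 4 + (4) * w ^ 3 * v ^ 3 * z ^ 2 + (1) * w ^ 4 * v ^ 4 + (-6) * z ^ 7 + (-18) * w * v * z ^ 5 + (-18) * w ^ 2 * v ^ 2 * z ^ 3 + (-6) * w ^ 3 * v ^ 3 * z + (41) * z ^ 6 + (99) * w * v * z ^ 4 + (75) * w ^ 2 * v ^ 2 * z ^ 2 + (17) * w ^ 3 * v ^ 3 + (-96) * z ^ 5 + (-192) * w * v * z ^ 3 + (-96) * w ^ 2 * v ^ 2 * z + (256) * z ^ 4 + (16) * w * v * z ^ 2 + (16) * w ^ 2 * v ^ 2 := by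
      intro w v z hw hv hz
      have e3 : (1) * z ^ 8 + (4) * w * v * z ^ 6 + (6) * w ^ 2 * v ^ 2 * z ^ 4 + (4) * w ^ 3 * v ^ 3 * z ^ 2 + (1) * w ^ 4 * v ^ 4 + (-6) * z ^ 7 + (-18) * w * v * z ^ 5 + (-18) * w ^ 2 * v ^ 2 * z ^ 3 + (-6) * w ^ 3 * v ^ 3 * z + (41) * z ^ 6 + (99) * w * v * z ^ 4 + (75) * w ^ 2 * v ^ 2 * z ^ 2 + (17) * w ^ 3 * v ^ 3 + (-96) * z ^ 5 + (-192) * w * v * z ^ 3 + (-96) * w ^ 2 * v ^ 2 * z + (256) * z ^ 4 + (16) * w * v * z ^ 2 + (16) * w ^ 2 * v ^ 2 = ((w * v + z ^ 2) * (w * v + (z - 4) * (z + 1)) + 20 * z ^ 2) ^ 2 +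
          (w * v) * (5 * (w * v + z ^ 2) - 12 * z) ^ 2 := by
        ring
      rw [e3, e1 w v hw hv, hz]; push_cast; ring
    obtain ⟨k0, k1, k2, k3, k4, k5, k6, k7⟩ := adjug _ _ _ _ _ _ _ _ _ _ _ h0 h1 h2 h3 h4 h5 h6 h7 _
      (hq _ _ _ rfl rfl rfl)
    refine real_part r (x 2) (by positivity) ?_
    by_contra hne
    have hne' := Complex.ofReal_ne_zero.2 hne
    apply hu0
    funext ⟨p, t⟩
    fin_cases p <;> fin_cases t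
    exacts [(mul_eq_zero.1 k0).resolve_left hne', (mul_eq_zero.1 k4).resolve_left hne',
      (mul_eq_zero.1 k1).resolve_left hne', (mul_eq_zero.1 k5).resolve_left hne',
      (mul_eq_zero.1 k2).resolve_left hne', (mul_eq_zero.1 k6).resolve_left hne',
      (mul_eq_zero.1 k3).resolve_left hne', (mul_eq_zero.1 k7).resolve_left hne']
  · rw [← Matrix.exists_mulVec_eq_zero_iff]
    rintro (⟨h1, h2⟩ | ⟨h1, h2⟩)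
    · have a0 : x 0 = 0 := by nlinarith [sq_nonneg (x 0), sq_nonneg (x 1)]
      have a1 : x 1 = 0 := by nlinarith [sq_nonneg (x 0), sq_nonneg (x 1)]
      refine ⟨fun p => ![![0, 0], ![0, 0], ![0, 0], ![1, 0]] p.1 p.2, fun h => ?_, ?_⟩
      · have := congrFun h (3, 0)
        simp at this
      · rw [ker_iff x _ _ _ _ rfl rfl rfl]
        simp [a0, a1, h2]
    · obtain ⟨w, hw⟩ : ∃ w : ℂ, w = x 0 + x 1 * Complex.I := ⟨_, rfl⟩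
      obtain ⟨v, hv⟩ : ∃ v : ℂ, v = x 0 - x 1 * Complex.I := ⟨_, rfl⟩
      have e2 := e1 w v hw hv
      rw [h1] at e2
      push_cast at e2
      refine ⟨fun p => ![![285, 551 * w], ![87 * v, 303], ![-174 * v, 264], ![0, 0]] p.1 p.2,
        fun h => ?_, ?_⟩
      · have := congrFun h (0, 0)
        simp at this
      · rw [ker_iff x _ w v (15 / 29) hw hv (by rw [h2]; push_cast; ring)]
        simp only [Matrix.cons_val_zero, Matrix.cons_val_one, Matrix.cons_val]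
        refine ⟨?_, ?_, ?_, ?_, ?_, ?_, ?_, ?_⟩
        · linear_combination (-551) * e2
        · ring
        · ring
        · linear_combination (-87) * e2
        · ring
        · linear_combination (174) * e2
        · ring
        · ring

end Pool.Agent.H.MP_782c7c_an
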