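import Pool.Agent.H.MP_782c7c_an.A

set_option autoImplicit false

namespace Pool.Agent.H.MP_782c7c_an

open Matrix Pool.Agent.H.MP_fa5fea_an

lemma loc_reindex {n m : Type} [Fintype n] [DecidableEq n] [Fintype m] [DecidableEq m]
    (e : n ≃ m) (A : Fin 3 → Matrix n n ℂ) (x : Fin 3 → ℝ) :
    (loc (fun j => reindex e e (A j)) x).det = (loc A x).det := by
  rw [← det_reindex_self (e.prodCongr (Equiv.refl (Fin 2))) (loc A x)]
  congr 1
  ext ⟨p, s⟩ ⟨q, t⟩
  simp [loc, Matrix.sum_apply, Matrix.one_apply]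

lemma loc_blocks {n m : Type} [Fintype n] [DecidableEq n] [Fintype m] [DecidableEq m]
    (A : Fin 3 → Matrix n n ℂ) (B : Fin 3 → Matrix m m ℂ) (x : Fin 3 → ℝ) :
    (loc (fun j => fromBlocks (A j) 0 0 (B j)) x).det = (loc A x).det * (loc B x).det := by
  rw [← det_fromBlocks_zero₂₁ (loc A x) 0 (loc B x),
    ← det_reindex_self (Equiv.sumProdDistrib n m (Fin 2)).symm]
  congr 1
  ext ⟨p, s⟩ ⟨q, t⟩
  rcases p with p | p <;> rcases q with q | q <;>
    simp [loc, Matrix.sum_apply, Matrix.one_apply]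

lemma loc_refl {n : Type} [Fintype n] [DecidableEq n] (A : Fin 3 → Matrix n n ℂ)
    (c x : Fin 3 → ℝ) :
    (loc (fun j => (c j : ℂ) • (1 : Matrix n n ℂ) - A j) x).det = 0 ↔ (loc A (c - x)).det = 0 := by
  have : loc (fun j => (c j : ℂ) • (1 : Matrix n n ℂ) - A j) x = -loc A (c - x) := by
    ext ⟨p, s⟩ ⟨q, t⟩
    simp only [loc, Matrix.sum_apply, Matrix.neg_apply, ← Finset.sum_neg_distrib]
    refine Finset.sum_congr rfl fun j _ => ?_
    simp
    ring
  rw [this, det_neg]; simp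

/-- radius -/
noncomputable def r0 : ℝ := Real.sqrt (819 / 841)

lemma r0_sq : r0 ^ 2 = 819 / 841 := Real.sq_sqrt (by norm_num)

/-- the direct sum with the point reflected copy -/
noncomputable def big : Fin 3 → Matrix (Fin 8) (Fin 8) ℂ := fun j =>
  reindex (finSumFinEquiv (m := 4) (n := 4)) (finSumFinEquiv (m := 4) (n := 4))
    (fromBlocks (rg j) 0 0 (((![r0, 0, 15 / 29] : Fin 3 → ℝ) j : ℂ) • (1 : Matrix (Fin 4) (Fin 4) ℂ) - rg j))

lemma big_herm (j : Fin 3) : (big j).IsHermitian := by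
  have h1 : ∀ c : ℝ, ((c : ℂ) • (1 : Matrix (Fin 4) (Fin 4) ℂ)).IsHermitian := by
    intro c; simp [IsHermitian]
  exact (IsHermitian.fromBlocks (rg_herm j) Matrix.conjTranspose_zero
    ((h1 _).sub (rg_herm j))).submatrix (finSumFinEquiv (m := 4) (n := 4)).symm

lemma big_spec (x : Fin 3 → ℝ) : (loc big x).det = 0 ↔
    ((x 0 - 0) ^ 2 + x 1 ^ 2 = 819 / 841 ∧ x 2 = 15 / 29) ∨
      ((x 0 - r0) ^ 2 + x 1 ^ 2 = 819 / 841 ∧ x 2 = 0) := by
  have := loc_reindex (finSumFinEquiv (m := 4) (n := 4)) (fun j => fromBlocks (rg j) 0 0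
    (((![r0, 0, 15 / 29] : Fin 3 → ℝ) j : ℂ) • (1 : Matrix (Fin 4) (Fin 4) ℂ) - rg j)) x
  unfold big
  rw [this, loc_blocks, mul_eq_zero, loc_refl, spec, spec]
  simp only [Pi.sub_apply, cons_val_zero, cons_val_one, cons_val]
  have hr := r0_sq
  constructor
  · rintro ((⟨h1, h2⟩ | ⟨h1, h2⟩) | (⟨h1, h2⟩ | ⟨h1, h2⟩))
    · have a0 : x 0 = 0 := by nlinarith [sq_nonneg (x 0), sq_nonneg (x 1)]
      have a1 : x 1 = 0 := by nlinarith [sq_nonneg (x 0), sq_nonneg (x 1)]
      right; rw [a0, a1]; exact ⟨by linarith, h2⟩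
    · left; exact ⟨by linarith, h2⟩
    · have a0 : r0 - x 0 = 0 := by nlinarith [sq_nonneg (r0 - x 0), sq_nonneg (0 - x 1)]
      have a1 : 0 - x 1 = 0 := by nlinarith [sq_nonneg (r0 - x 0), sq_nonneg (0 - x 1)]
      have b0 : x 0 = r0 := by linarith
      have b1 : x 1 = 0 := by linarith
      left; rw [b0, b1]; exact ⟨by linarith, by linarith⟩
    · right; exact ⟨by linarith, by linarith⟩
  · rintro (⟨h1, h2⟩ | ⟨h1, h2⟩)
    · left; right; exact ⟨by linarith, h2⟩
    · right; right; exact ⟨by linarith, by linarith⟩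

lemma circ (S O : Set (Fin 3 → ℝ)) (hO : IsOpen O) (a h ρ : ℝ) (hρ : 0 < ρ)
    (hS : ∀ x ∈ O, x ∈ S ↔ (x 0 - a) ^ 2 + x 1 ^ 2 = ρ ∧ x 2 = h)
    (hh : ∀ x : Fin 3 → ℝ, x 2 = h → x ∈ O) (p : S) (hp : p.1 ∈ O) :
    ∃ U : Set S, IsOpen U ∧ p ∈ U ∧ Nonempty (U ≃ₜ ℝ) := by
  obtain ⟨α, hα⟩ : ∃ α, α = p.1 0 - a := ⟨_, rfl⟩
  obtain ⟨β, hβ⟩ : ∃ β, β = p.1 1 := ⟨_, rfl⟩
  have hab : α ^ 2 + β ^ 2 = ρ := by rw [hα, hβ]; exact ((hS _ hp).1 p.2).1
  let U : Set S := {q | q.1 ∈ O ∧ 0 < ρ + (q.1 0 - a) * α + q.1 1 * β}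
  let g : ℝ → Fin 3 → ℝ := fun t =>
    ![a + (α * (1 - t ^ 2) - 2 * β * t) / (1 + t ^ 2), (β * (1 - t ^ 2) + 2 * α * t) / (1 + t ^ 2), h]
  have g0 : ∀ t, g t 0 = a + (α * (1 - t ^ 2) - 2 * β * t) / (1 + t ^ 2) := fun t => rfl
  have g1 : ∀ t, g t 1 = (β * (1 - t ^ 2) + 2 * α * t) / (1 + t ^ 2) := fun t => rfl
  have g2 : ∀ t, g t 2 = h := fun t => rfl
  have gO : ∀ t, g t ∈ O := fun t => hh _ rfl
  have gS : ∀ t, g t ∈ S := fun t => (hS _ (gO t)).2 ⟨by
    have : (1 + t ^ 2) ≠ 0 := by positivity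
    rw [g0, g1, ← hab]; field_simp; ring, rfl⟩
  have gD : ∀ t, ρ + (g t 0 - a) * α + g t 1 * β = 2 * ρ / (1 + t ^ 2) := fun t => by
    have : (1 + t ^ 2) ≠ 0 := by positivity
    rw [g0, g1, ← hab]; field_simp; ring
  have gc : Continuous g := by
    refine continuous_pi fun i => ?_
    fin_cases i
    · exact continuous_const.add (Continuous.div (by fun_prop) (by fun_prop) fun t => by positivity)
    · exact Continuous.div (f := fun t : ℝ => β * (1 - t ^ 2) + 2 * α * t) (by fun_prop)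
        (by fun_prop) fun t => by positivity
    · exact continuous_const
  refine ⟨U, ?_, ⟨hp, ?_⟩, ⟨?_⟩⟩
  · have c0 : Continuous fun q : S => q.1 0 := (continuous_apply 0).comp continuous_subtype_val
    have c1 : Continuous fun q : S => q.1 1 := (continuous_apply 1).comp continuous_subtype_val
    have c2 : Continuous fun q : S => ρ + (q.1 0 - a) * α + q.1 1 * β :=
      (continuous_const.add ((c0.sub continuous_const).mul continuous_const)).add
        (c1.mul continuous_const)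
    have o2 := isOpen_lt (continuous_const (y := (0 : ℝ))) c2
    exact (hO.preimage continuous_subtype_val).inter o2
  · rw [← hα, ← hβ]; nlinarith
  · refine
      { toFun := fun q => (-(q.1.1 0 - a) * β + q.1.1 1 * α) / (ρ + (q.1.1 0 - a) * α + q.1.1 1 * β)
        invFun := fun t => ⟨⟨g t, gS t⟩, gO t, by rw [gD]; positivity⟩
        left_inv := ?_
        right_inv := ?_
        continuous_toFun := ?_
        continuous_invFun := ?_ }
    · rintro ⟨⟨q, hqS⟩, hqO, hqD⟩
      obtain ⟨hq1, hq2⟩ := (hS q hqO).1 hqS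
      simp only at hqD
      obtain ⟨X, hX⟩ : ∃ X, X = q 0 - a := ⟨_, rfl⟩
      obtain ⟨Y, hY⟩ : ∃ Y, Y = q 1 := ⟨_, rfl⟩
      rw [← hX, ← hY] at hq1 hqD
      obtain ⟨D, hD⟩ : ∃ D, D = ρ + X * α + Y * β := ⟨_, rfl⟩
      obtain ⟨E, hE⟩ : ∃ E, E = -X * β + Y * α := ⟨_, rfl⟩
      have hD0 : D ≠ 0 := by rw [hD]; exact hqD.ne'
      have k1 : D ^ 2 + E ^ 2 = 2 * ρ * D := by
        rw [hD, hE]; linear_combination (X ^ 2 + Y ^ 2) * hab + ρ * hq1
      have k2 : 1 + (E / D) ^ 2 = 2 * ρ / D := by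
        field_simp; linear_combination k1
      have k3 : 1 - (E / D) ^ 2 = 2 * (D - ρ) / D := by
        field_simp; linear_combination -k1
      apply Subtype.ext
      apply Subtype.ext
      funext i
      simp only [← hX, ← hY, ← hD, ← hE]
      fin_cases i
      · change g (E / D) 0 = q 0
        have : q 0 = a + X := by rw [hX]; ring
        rw [g0, k2, k3, this]
        field_simp
        rw [hD, hE]; linear_combination X * hab
      · change g (E / D) 1 = q 1
        rw [g1, k2, k3, ← hY]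
        field_simp
        rw [hD, hE]; linear_combination Y * hab
      · exact hq2.symm
    · intro t
      have : (1 + t ^ 2) ≠ 0 := by positivity
      simp only
      rw [gD, g0, g1]
      field_simp
      linear_combination (2 * t) * hab
    · have c0 : Continuous fun q : U => q.1.1 0 :=
        (continuous_apply 0).comp (continuous_subtype_val.comp continuous_subtype_val)
      have c1 : Continuous fun q : U => q.1.1 1 :=
        (continuous_apply 1).comp (continuous_subtype_val.comp continuous_subtype_val)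
      exact Continuous.div (((c0.sub continuous_const).neg.mul continuous_const).add
        (c1.mul continuous_const)) ((continuous_const.add ((c0.sub continuous_const).mul
          continuous_const)).add (c1.mul continuous_const)) fun q => q.2.2.ne'
    · exact (gc.subtype_mk _).subtype_mk _

theorem manifold (S : Set (Fin 3 → ℝ)) (hS : ∀ x, x ∈ S ↔ (loc big x).det = 0) :
    S.Nonempty ∧ ∀ p : S, ∃ U : Set S, IsOpen U ∧ p ∈ U ∧ Nonempty (U ≃ₜ ℝ) := by
  simp only [big_spec] at hS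
  refine ⟨⟨![r0, 0, 15 / 29], (hS _).2 (Or.inl ⟨by simp [r0_sq], rfl⟩)⟩, fun p => ?_⟩
  rcases (hS _).1 p.2 with h | h
  · refine circ S {x | 1 / 4 < x 2} (isOpen_lt continuous_const (by fun_prop)) 0 (15 / 29)
      (819 / 841) (by norm_num) (fun x hx => ?_) (fun x hx => ?_) p ?_
    · rw [hS]
      refine ⟨fun h => h.resolve_right fun h' => ?_, Or.inl⟩
      have : 1 / 4 < x 2 := hx
      linarith [h'.2]
    · change 1 / 4 < x 2
      rw [hx]; norm_num
    · change 1 / 4 < p.1 2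
      rw [h.2]; norm_num
  · refine circ S {x | x 2 < 1 / 4} (isOpen_lt (by fun_prop) continuous_const) r0 0
      (819 / 841) (by norm_num) (fun x hx => ?_) (fun x hx => ?_) p ?_
    · rw [hS]
      refine ⟨fun h => h.resolve_left fun h' => ?_, Or.inr⟩
      have : x 2 < 1 / 4 := hx
      linarith [h'.2]
    · change x 2 < 1 / 4
      rw [hx]; norm_num
    · change p.1 2 < 1 / 4
      rw [h.2]; norm_num

end Pool.Agent.H.MP_782c7c_an
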